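import Pool.Agent.Lib.MP_67d80e_pr_g3.Ct8.D

/-!
Certificate in dimension 8: checks, part 10.
-/

set_option autoImplicit false

namespace Pool.Agent.Lib.MP_67d80e_pr_g3.Ct8

theorem cd19_0 : fa 15 21 (fun i => D.cDi 19 i) = true := by decide +kernel

theorem cs20 : D.cS 20 = true := by decide +kernel

theorem cc20 : D.cC 20 = true := by decide +kernel

theorem cn20 : D.cN 20 = true := by decide +kernel

theorem ce20 : D.cE 20 = true := by decide +kernel

theorem cb20 : D.cB 20 = true := by decide +kernel

theorem cd20_0 : fa 16 21 (fun i => D.cDi 20 i) = true := by decide +kernel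

theorem cs21 : D.cS 21 = true := by decide +kernel

theorem cc21 : D.cC 21 = true := by decide +kernel

theorem cn21 : D.cN 21 = true := by decide +kernel

theorem ce21 : D.cE 21 = true := by decide +kernel

theorem cb21 : D.cB 21 = true := by decide +kernel

theorem cd21_0 : fa 16 21 (fun i => D.cDi 21 i) = true := by decide +kernel

theorem cs22 : D.cS 22 = true := by decide +kernel

theorem cc22 : D.cC 22 = true := by decide +kernel

theorem cn22 : D.cN 22 = true := by decide +kernel

theorem ce22 : D.cE 22 = true := by decide +kernel

theorem cb22 : D.cB 22 = true := by decide +kernel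

theorem cd22_0 : fa 17 21 (fun i => D.cDi 22 i) = true := by decide +kernel

theorem cs23 : D.cS 23 = true := by decide +kernel

theorem cc23 : D.cC 23 = true := by decide +kernel

theorem cn23 : D.cN 23 = true := by decide +kernel

theorem ce23 : D.cE 23 = true := by decide +kernel

theorem cb23 : D.cB 23 = true := by decide +kernel

theorem cd23_0 : fa 17 21 (fun i => D.cDi 23 i) = true := by decide +kernel

theorem cs24 : D.cS 24 = true := by decide +kernel

theorem cc24 : D.cC 24 = true := by decide +kernel

theorem ce24 : D.cE 24 = true := by decide +kernel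

theorem cb24 : D.cB 24 = true := by decide +kernel

theorem cd24_0 : fa 17 21 (fun i => D.cDi 24 i) = true := by decide +kernel


end Pool.Agent.Lib.MP_67d80e_pr_g3.Ct8
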