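import Pool.Agent.Lib.MP_67d80e_pr_g3.Ct8.D

/-!
Certificate in dimension 8: checks, part 4.
-/

set_option autoImplicit false

namespace Pool.Agent.Lib.MP_67d80e_pr_g3.Ct8

theorem cs3 : D.cS 3 = true := by decide +kernel

theorem cc3 : D.cC 3 = true := by decide +kernel

theorem cn3 : D.cN 3 = true := by decide +kernel

theorem ce3 : D.cE 3 = true := by decide +kernel

theorem cb3 : D.cB 3 = true := by decide +kernel

theorem cd3_0 : fa 5 21 (fun i => D.cDi 3 i) = true := by decide +kernel


end Pool.Agent.Lib.MP_67d80e_pr_g3.Ct8
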