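import Pool.Agent.Lib.MP_67d80e_pr_g3.Ct8.R
import Pool.Agent.Lib.MP_67d80e_pr_g3.Ct8.C1
import Pool.Agent.Lib.MP_67d80e_pr_g3.Ct8.C2
import Pool.Agent.Lib.MP_67d80e_pr_g3.Ct8.C3
import Pool.Agent.Lib.MP_67d80e_pr_g3.Ct8.C4
import Pool.Agent.Lib.MP_67d80e_pr_g3.Ct8.C5
import Pool.Agent.Lib.MP_67d80e_pr_g3.Ct8.C6
import Pool.Agent.Lib.MP_67d80e_pr_g3.Ct8.C7
import Pool.Agent.Lib.MP_67d80e_pr_g3.Ct8.C8
import Pool.Agent.Lib.MP_67d80e_pr_g3.Ct8.C9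
import Pool.Agent.Lib.MP_67d80e_pr_g3.Ct8.C10

/-!
Certificate in dimension 8: the lower bound.
-/

set_option autoImplicit false

open Pool.Agent.Lib.MP_67d80e_pr Pool.Agent.Lib.MP_67d80e_pr_all

namespace Pool.Agent.Lib.MP_67d80e_pr_g3.Ct8

lemma cs_all : ∀ n, 1 ≤ n → n ≤ 24 → D.cS n = true := by
  intro n h1 h2
  interval_cases n
  exacts [cs1, cs2, cs3, cs4, cs5, cs6, cs7, cs8, cs9, cs10, cs11, cs12, cs13, cs14, cs15, cs16, cs17, cs18, cs19, cs20, cs21, cs22, cs23, cs24]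

lemma cc_all : ∀ n, 1 ≤ n → n ≤ 24 → D.cC n = true := by
  intro n h1 h2
  interval_cases n
  exacts [cc1, cc2, cc3, cc4, cc5, cc6, cc7, cc8, cc9, cc10, cc11, cc12, cc13, cc14, cc15, cc16, cc17, cc18, cc19, cc20, cc21, cc22, cc23, cc24]

lemma cn_all : ∀ n, 1 ≤ n → n < 24 → D.cN n = true := by
  intro n h1 h2
  interval_cases n
  exacts [cn1, cn2, cn3, cn4, cn5, cn6, cn7, cn8, cn9, cn10, cn11, cn12, cn13, cn14, cn15, cn16, cn17, cn18, cn19, cn20, cn21, cn22, cn23]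

lemma ce_all : ∀ n, 1 ≤ n → n ≤ 24 → D.cE n = true := by
  intro n h1 h2
  interval_cases n
  exacts [ce1, ce2, ce3, ce4, ce5, ce6, ce7, ce8, ce9, ce10, ce11, ce12, ce13, ce14, ce15, ce16, ce17, ce18, ce19, ce20, ce21, ce22, ce23, ce24]

lemma cb_all : ∀ n, 1 ≤ n → n ≤ 24 → D.cB n = true := by
  intro n h1 h2
  interval_cases n
  exacts [cb1, cb2, cb3, cb4, cb5, cb6, cb7, cb8, cb9, cb10, cb11, cb12, cb13, cb14, cb15, cb16, cb17, cb18, cb19, cb20, cb21, cb22, cb23, cb24]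

lemma cd1 : ∀ i, 0 ≤ i → i ≤ 20 → D.cDi 1 i = true := by
  intro i h1 h2
  rcases Nat.lt_or_ge i 13 with h3 | h3
  · exact fa_sound cd1_0 i (by omega) h3
  exact fa_sound cd1_1 i (by omega) (by omega)

lemma cd2 : ∀ i, 3 ≤ i → i ≤ 20 → D.cDi 2 i = true := by
  intro i h1 h2
  exact fa_sound cd2_0 i (by omega) (by omega)

lemma cd3 : ∀ i, 5 ≤ i → i ≤ 20 → D.cDi 3 i = true := by
  intro i h1 h2
  exact fa_sound cd3_0 i (by omega) (by omega)

lemma cd4 : ∀ i, 6 ≤ i → i ≤ 20 → D.cDi 4 i = true := by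
  intro i h1 h2
  exact fa_sound cd4_0 i (by omega) (by omega)

lemma cd5 : ∀ i, 7 ≤ i → i ≤ 20 → D.cDi 5 i = true := by
  intro i h1 h2
  exact fa_sound cd5_0 i (by omega) (by omega)

lemma cd6 : ∀ i, 8 ≤ i → i ≤ 20 → D.cDi 6 i = true := by
  intro i h1 h2
  exact fa_sound cd6_0 i (by omega) (by omega)

lemma cd7 : ∀ i, 9 ≤ i → i ≤ 20 → D.cDi 7 i = true := by
  intro i h1 h2
  exact fa_sound cd7_0 i (by omega) (by omega)

lemma cd8 : ∀ i, 10 ≤ i → i ≤ 20 → D.cDi 8 i = true := by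
  intro i h1 h2
  exact fa_sound cd8_0 i (by omega) (by omega)

lemma cd9 : ∀ i, 11 ≤ i → i ≤ 20 → D.cDi 9 i = true := by
  intro i h1 h2
  exact fa_sound cd9_0 i (by omega) (by omega)

lemma cd10 : ∀ i, 12 ≤ i → i ≤ 20 → D.cDi 10 i = true := by
  intro i h1 h2
  exact fa_sound cd10_0 i (by omega) (by omega)

lemma cd11 : ∀ i, 12 ≤ i → i ≤ 20 → D.cDi 11 i = true := by
  intro i h1 h2
  exact fa_sound cd11_0 i (by omega) (by omega)

lemma cd12 : ∀ i, 13 ≤ i → i ≤ 20 → D.cDi 12 i = true := by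
  intro i h1 h2
  exact fa_sound cd12_0 i (by omega) (by omega)

lemma cd13 : ∀ i, 13 ≤ i → i ≤ 20 → D.cDi 13 i = true := by
  intro i h1 h2
  exact fa_sound cd13_0 i (by omega) (by omega)

lemma cd14 : ∀ i, 13 ≤ i → i ≤ 20 → D.cDi 14 i = true := by
  intro i h1 h2
  exact fa_sound cd14_0 i (by omega) (by omega)

lemma cd15 : ∀ i, 13 ≤ i → i ≤ 20 → D.cDi 15 i = true := by
  intro i h1 h2
  exact fa_sound cd15_0 i (by omega) (by omega)

lemma cd16 : ∀ i, 13 ≤ i → i ≤ 20 → D.cDi 16 i = true := by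
  intro i h1 h2
  exact fa_sound cd16_0 i (by omega) (by omega)

lemma cd17 : ∀ i, 14 ≤ i → i ≤ 20 → D.cDi 17 i = true := by
  intro i h1 h2
  exact fa_sound cd17_0 i (by omega) (by omega)

lemma cd18 : ∀ i, 15 ≤ i → i ≤ 20 → D.cDi 18 i = true := by
  intro i h1 h2
  exact fa_sound cd18_0 i (by omega) (by omega)

lemma cd19 : ∀ i, 15 ≤ i → i ≤ 20 → D.cDi 19 i = true := by
  intro i h1 h2
  exact fa_sound cd19_0 i (by omega) (by omega)

lemma cd20 : ∀ i, 16 ≤ i → i ≤ 20 → D.cDi 20 i = true := by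
  intro i h1 h2
  exact fa_sound cd20_0 i (by omega) (by omega)

lemma cd21 : ∀ i, 16 ≤ i → i ≤ 20 → D.cDi 21 i = true := by
  intro i h1 h2
  exact fa_sound cd21_0 i (by omega) (by omega)

lemma cd22 : ∀ i, 17 ≤ i → i ≤ 20 → D.cDi 22 i = true := by
  intro i h1 h2
  exact fa_sound cd22_0 i (by omega) (by omega)

lemma cd23 : ∀ i, 17 ≤ i → i ≤ 20 → D.cDi 23 i = true := by
  intro i h1 h2
  exact fa_sound cd23_0 i (by omega) (by omega)

lemma cd24 : ∀ i, 17 ≤ i → i ≤ 20 → D.cDi 24 i = true := by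
  intro i h1 h2
  exact fa_sound cd24_0 i (by omega) (by omega)

lemma cd_all : ∀ n, 1 ≤ n → n ≤ 24 → ∀ i, D.b (n + 1) ≤ i → i ≤ D.K1 → D.cDi n i = true := by
  intro n h1 h2
  interval_cases n
  exacts [cd1, cd2, cd3, cd4, cd5, cd6, cd7, cd8, cd9, cd10, cd11, cd12, cd13, cd14, cd15, cd16, cd17, cd18, cd19, cd20, cd21, cd22, cd23, cd24]

theorem allOk : D.AllOk 8 vE_8 vF_8 where
  geo := geo
  EH := by decide +kernel
  row := row
  cs := fun n h1 h2 => cs_all n h1 h2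
  cc := fun n h1 h2 => cc_all n h1 h2
  cn := fun n h1 h2 => cn_all n h1 h2
  ce := fun n h1 h2 => ce_all n h1 h2
  cb := fun n h1 h2 => cb_all n h1 h2
  cd := cd_all

/-- the lower bound in dimension 8 -/
theorem hasLB : HasLB 8 ((6772029 : ℝ) / 1000000) := by
  have h := allOk.hasLB isoV_eight.1 isoV_eight.2
  have e : ((D.C : ℕ) : ℝ) / ((D.S : ℕ) : ℝ) = (6772029 : ℝ) / 1000000 := by
    have e1 : D.C = 6772029 := rfl
    have e2 : D.S = 1000000 := rfl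
    rw [e1, e2]
    norm_num
  rwa [e] at h

end Pool.Agent.Lib.MP_67d80e_pr_g3.Ct8
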